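import Pool.Agent.D0H76.Mumford.Final

/-!
# A locally compact Mumford group with circle center that is not a generalized Heisenberg group

The group is `G = 𝕋 × K`, where `K` is the restricted product over all odd primes `p` of the finite
groups `K_p = (ℤ/p^8)² × (ℤ/p^10)² × (ℤ/p^4)²` with respect to Lagrangian subgroups `L_p` that are
not compatible with any decomposition of `K_p` into two isotropic summands.
-/

namespace Pool.Agent.Results.MP_9969af_al.MumfordNotHeisenberg

open Pool.Agent.D0H76.Mumford

universe u v w

/-- `G` is nilpotent of class at most two, has center topologically isomorphic to the circle (via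
`e`), and its Mumford map `M : G/Z(G) → (G/Z(G))^`, `M (xZ) (yZ) = e [x, y]`, is an isomorphism of
topological groups. -/
def IsMumford (G : Type) [Group G] [TopologicalSpace G] : Prop :=
  ∃ (hG : ∀ x y : G, x * y * x⁻¹ * y⁻¹ ∈ Subgroup.center G)
    (e : Subgroup.center G ≃ₜ* Circle)
    (M : (G ⧸ Subgroup.center G) ≃ₜ* PontryaginDual (G ⧸ Subgroup.center G)),
    ∀ x y : G, M (QuotientGroup.mk x) (QuotientGroup.mk y) = e ⟨x * y * x⁻¹ * y⁻¹, hG x y⟩

/-- The product of the generalized Heisenberg group `ℍ(ω)` of a bilinear map `ω : E × F → A`, on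
the set `A × E × F`. -/
def heisMul {E : Type u} {F : Type v} {A : Type w} [AddCommGroup E] [AddCommGroup F]
    [AddCommGroup A] (ω : E →+ F →+ A) (g h : A × E × F) : A × E × F :=
  (g.1 + h.1 + ω g.2.1 h.2.2, g.2.1 + h.2.1, g.2.2 + h.2.2)

/-- There is a Hausdorff locally compact Mumford group `G` with center the circle,
which is not isomorphic (not even as an abstract group) to the
generalized Heisenberg group `A × E × F` of a bilinear map `ω : E × F → A`. -/
theorem result :
    ∃ (G : Type) (_ : Group G) (_ : TopologicalSpace G) (_ : IsTopologicalGroup G)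
      (_ : T2Space G) (_ : LocallyCompactSpace G),
      IsMumford G ∧
      ∀ (E : Type u) (F : Type v) (A : Type w) [AddCommGroup E] [AddCommGroup F] [AddCommGroup A]
        (ω : E →+ F →+ A) (f : G ≃ A × E × F),
        ¬ ∀ x y : G, f (x * y) = heisMul ω (f x) (f y) := by
  have hcont : Continuous (fun p : XX × XX => BB p.1 p.2) := B_continuous LL bb bb_iso
  refine ⟨HG BB, inferInstance, inferInstance, HG.isTopologicalGroup hcont, inferInstance,
    inferInstance, HG.mumford (B := BB) MK MK_apply, ?_⟩
  intro E F A _ _ _ ω f hf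
  obtain ⟨p, hp1, hp2⟩ := HG.exists_projector XX_nd ω f hf
  refine no_proj LL cc (fun i => i.1 ^ 10) (fun i x => nsmul_eq_zero i.1 x)
    OddPrime.coprime cc_iso cc_nd cc_ns p ?_ ?_
  · intro x y
    rw [← BB_comm]
    exact hp1 x y
  · intro x y
    rw [← BB_comm]
    exact hp2 x y

end Pool.Agent.Results.MP_9969af_al.MumfordNotHeisenberg
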